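import Pool.Agent.Results.MP_15e198_al.Main

set_option autoImplicit false
set_option linter.unusedSectionVars false

/-!
The upper bounds of the starting file `Pool.Agent.Results.MP_15e198_al.Main`, for finite subsets `X` of
an arbitrary subgroup `H` of the free group such that every function on `X` with values in `ZMod 2` is
the restriction of a homomorphism defined on `H`.  The arguments follow the starting file.
-/

namespace Pool.Agent.Y367.FB

open FreeGroup Pool.Agent.Results.MP_15e198_al.Main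

variable {α : Type} [DecidableEq α]

section upper

variable (X : Finset (FreeGroup α)) (H : Subgroup (FreeGroup α))

theorem loop_surj (hXH : ∀ x ∈ X, x ∈ H)
    (hX : ∀ f : X → ZMod 2, ∃ χ : H →* Multiplicative (ZMod 2), ∀ x (hx : x ∈ X),
      χ ⟨x, hXH x hx⟩ = Multiplicative.ofAdd (f ⟨x, hx⟩))
    (E : Set (α × (FreeGroup α ⧸ H)))
    (hused : ∀ x ∈ X, used E (toWord x) ((1 : FreeGroup α) : FreeGroup α ⧸ H)) :
    Function.Surjective (loopMap X E ((1 : FreeGroup α) : FreeGroup α ⧸ H)) := by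
  classical
  intro f
  set base : FreeGroup α ⧸ H := ((1 : FreeGroup α) : FreeGroup α ⧸ H) with hbase
  obtain ⟨χ, hχ⟩ := hX f
  let χ' : FreeGroup α → ZMod 2 := fun g => if h : g ∈ H then (χ ⟨g, h⟩).toAdd else 0
  have hχmul : ∀ g g', g ∈ H → g' ∈ H → χ' (g * g') = χ' g + χ' g' := by
    intro g g' h h'
    simp only [χ']
    rw [dif_pos h, dif_pos h', dif_pos (H.mul_mem h h'), ← toAdd_mul, ← _root_.map_mul]
    rfl
  have hχ1 : χ' 1 = 0 := by
    have := hχmul 1 1 H.one_mem H.one_mem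
    rw [one_mul] at this
    have h2 : ∀ x : ZMod 2, x = x + x → x = 0 := by decide
    exact h2 _ this
  have hχX : ∀ x (hx : x ∈ X), χ' x = f ⟨x, hx⟩ := by
    intro x hx
    simp only [χ']
    rw [dif_pos (hXH x hx), hχ x hx]
    rfl
  let t : FreeGroup α ⧸ H → FreeGroup α := Quotient.out
  have ht : ∀ q, ((t q : FreeGroup α) : FreeGroup α ⧸ H) = q := fun q => Quotient.out_eq q
  have hmem : ∀ (g : FreeGroup α) q, (t (g • q))⁻¹ * (g * t q) ∈ H := by
    intro g q
    rw [← QuotientGroup.eq, ht]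
    conv_lhs => rw [← ht q]
    rfl
  let k : FreeGroup α → (FreeGroup α ⧸ H) → ZMod 2 := fun g q =>
    χ' ((t (g • q))⁻¹ * (g * t q))
  have hk1 : ∀ q, k 1 q = 0 := by
    intro q
    simp only [k, one_smul, one_mul, inv_mul_cancel, hχ1]
  have hkmul : ∀ g g' q, k (g * g') q = k g (g' • q) + k g' q := by
    intro g g' q
    simp only [k]
    rw [← hχmul _ _ (hmem g (g' • q)) (hmem g' q), mul_smul]
    congr 1
    group
  refine ⟨fun e => k (of e.1.1) e.1.2, ?_⟩
  funext ⟨x, hx⟩
  change ps (ext0 E (fun e => k (of e.1.1) e.1.2)) (toWord x) base = f ⟨x, hx⟩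
  have h1 : ps (ext0 E (fun e => k (of e.1.1) e.1.2)) (toWord x) base =
      ps (fun e => k (of e.1) e.2) (toWord x) base := by
    apply ps_congr (E := E) _ _ _ (hused x hx)
    intro e he
    rw [ext0_mem _ he]
  rw [h1, ps_cocycle (k := k) hk1 hkmul (fun _ _ => rfl), mk_toWord]
  simp only [k]
  have hxb : x • base = base := by
    rw [hbase]
    change ((x * 1 : FreeGroup α) : FreeGroup α ⧸ H) = _
    rw [mul_one, eq_comm, QuotientGroup.eq]
    simpa using hXH x hx
  have htb : t base ∈ H := by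
    have := ht base
    rw [hbase, eq_comm, QuotientGroup.eq] at this
    simpa using this
  have htb' : (t base)⁻¹ ∈ H := H.inv_mem htb
  rw [hxb, hχmul _ _ htb' (H.mul_mem (hXH x hx) htb),
    hχmul _ _ (hXH x hx) htb, hχX x hx]
  have h5 := hχmul _ _ htb' htb
  rw [inv_mul_cancel, hχ1] at h5
  have : ∀ x y z : ZMod 2, 0 = x + y → x + (z + y) = z := by decide
  exact this _ _ _ h5

theorem key_bound (hXH : ∀ x ∈ X, x ∈ H)
    (hX : ∀ f : X → ZMod 2, ∃ χ : H →* Multiplicative (ZMod 2), ∀ x (hx : x ∈ X),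
      χ ⟨x, hXH x hx⟩ = Multiplicative.ofAdd (f ⟨x, hx⟩))
    (S : Set (FreeGroup α ⧸ H)) (E : Set (α × (FreeGroup α ⧸ H)))
    [Finite S] [Finite E]
    (hbase : ((1 : FreeGroup α) : FreeGroup α ⧸ H) ∈ S)
    (hconn : ∀ φ : (FreeGroup α ⧸ H) → ZMod 2, (∀ e ∈ E, φ e.2 = φ (of e.1 • e.2)) →
      ∀ q ∈ S, φ q = φ ((1 : FreeGroup α) : FreeGroup α ⧸ H))
    (hused : ∀ x ∈ X, used E (toWord x) ((1 : FreeGroup α) : FreeGroup α ⧸ H)) :
    X.card + Nat.card S ≤ Nat.card E + 1 := by
  classical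
  set base : FreeGroup α ⧸ H := ((1 : FreeGroup α) : FreeGroup α ⧸ H) with hbase'
  have hstab : ∀ x ∈ X, x • base = base := by
    intro x hx
    rw [hbase']
    change ((x * 1 : FreeGroup α) : FreeGroup α ⧸ H) = _
    rw [mul_one, eq_comm, QuotientGroup.eq]
    simpa using hXH x hx
  let _ : Fintype E := Fintype.ofFinite E
  have h1 := conn_bound (S := S) (E := E) base hbase hconn
  have h2 := Submodule.finrank_mono (loop_cob (S := S) base hused hstab)
  have h3 := LinearMap.finrank_range_add_finrank_ker (loopMap X E base)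
  have h4 : Module.finrank (ZMod 2) (LinearMap.range (loopMap X E base)) = X.card := by
    rw [LinearMap.range_eq_top.2 (loop_surj X H hXH hX E hused), finrank_top,
      Module.finrank_fintype_fun_eq_card]
    simp
  rw [h4, Module.finrank_fintype_fun_eq_card, ← Nat.card_eq_fintype_card] at h3
  omega

/-- The ball in the coset space. -/
def ballQ (m : ℕ) : Set (FreeGroup α ⧸ H) :=
  (fun g : FreeGroup α => (g : FreeGroup α ⧸ H)) '' (ball α m)

theorem finite_ballQ [Finite α] (m : ℕ) : (ballQ H m).Finite := (finite_ball α m).image _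

theorem ballQ_mono {m n : ℕ} (h : m ≤ n) : ballQ H m ⊆ ballQ H n := by
  apply Set.image_mono
  intro g hg
  change FreeGroup.norm g ≤ m at hg
  change FreeGroup.norm g ≤ n
  omega

theorem card_ballQ_le [Finite α] (m : ℕ) : Nat.card (ballQ H m) ≤ Nat.card (ball α m) := by
  rw [Nat.card_coe_set_eq, Nat.card_coe_set_eq]
  exact Set.ncard_image_le (finite_ball α m)

theorem mk_mem_ballQ {m : ℕ} {L : List (α × Bool)} (h : L.length ≤ m) :
    (mk L : FreeGroup α) • ((1 : FreeGroup α) : FreeGroup α ⧸ H) ∈ ballQ H m := by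
  refine ⟨mk L, ?_, ?_⟩
  · change FreeGroup.norm (mk L) ≤ m
    exact (FreeGroup.norm_mk_le).trans h
  · change _ = ((mk L * 1 : FreeGroup α) : FreeGroup α ⧸ H)
    rw [mul_one]

theorem ballQ_eq {m : ℕ} {q : FreeGroup α ⧸ H} (h : q ∈ ballQ H m) :
    ∃ L : List (α × Bool), L.length ≤ m ∧
      q = (mk L : FreeGroup α) • ((1 : FreeGroup α) : FreeGroup α ⧸ H) := by
  obtain ⟨g, hg, rfl⟩ := h
  refine ⟨toWord g, hg, ?_⟩
  change _ = ((mk (toWord g) * 1 : FreeGroup α) : FreeGroup α ⧸ H)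
  rw [mk_toWord, mul_one]

theorem conn_of (m : ℕ) (E : Set (α × (FreeGroup α ⧸ H)))
    (hE : ∀ (c : α × Bool) (L : List (α × Bool)), L.length + 1 ≤ m →
      edge c L ((1 : FreeGroup α) : FreeGroup α ⧸ H) ∈ E)
    (φ : (FreeGroup α ⧸ H) → ZMod 2) (hφ : ∀ e ∈ E, φ e.2 = φ (of e.1 • e.2)) :
    ∀ q ∈ ballQ H m, φ q = φ ((1 : FreeGroup α) : FreeGroup α ⧸ H) := by
  intro q hq
  obtain ⟨L, hL, rfl⟩ := ballQ_eq H hq
  clear hq
  induction L with
  | nil =>
    have : (mk [] : FreeGroup α) = 1 := rfl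
    rw [this, one_smul]
  | cons c L ih =>
    simp only [List.length_cons] at hL
    have ih' := ih (by omega)
    have h1 := hφ _ (hE c L hL)
    rcases edge_ends c L ((1 : FreeGroup α) : FreeGroup α ⧸ H) with ⟨h2, h3⟩ | ⟨h2, h3⟩
    · rw [h3, h2] at h1
      rw [← h1, ih']
    · rw [h3, h2] at h1
      rw [h1, ih']

theorem used_of (E : Set (α × (FreeGroup α ⧸ H))) (n : ℕ)
    (hE : ∀ (c : α × Bool) (L P : List (α × Bool)), P.length + 1 + L.length ≤ n →
      ((mk (P ++ c :: L) : FreeGroup α)) • ((1 : FreeGroup α) : FreeGroup α ⧸ H) =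
        ((1 : FreeGroup α) : FreeGroup α ⧸ H) →
      edge c L ((1 : FreeGroup α) : FreeGroup α ⧸ H) ∈ E)
    (L P : List (α × Bool)) (hn : (P ++ L).length ≤ n)
    (hfix : ((mk (P ++ L) : FreeGroup α)) • ((1 : FreeGroup α) : FreeGroup α ⧸ H) =
        ((1 : FreeGroup α) : FreeGroup α ⧸ H)) :
    used E L ((1 : FreeGroup α) : FreeGroup α ⧸ H) := by
  induction L generalizing P with
  | nil => trivial
  | cons c L ih =>
    refine ⟨ih (P ++ [c]) (by simpa using hn) (by simpa using hfix), ?_⟩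
    apply hE c L P _ hfix
    simp only [List.length_append, List.length_cons] at hn
    omega

/-- a suffix vertex is also reached by the inverse of the prefix -/
theorem suffix_vertex {m : ℕ} (P L : List (α × Bool))
    (hfix : ((mk (P ++ L) : FreeGroup α)) • ((1 : FreeGroup α) : FreeGroup α ⧸ H) =
        ((1 : FreeGroup α) : FreeGroup α ⧸ H)) (hP : P.length ≤ m) :
    (mk L : FreeGroup α) • ((1 : FreeGroup α) : FreeGroup α ⧸ H) ∈ ballQ H m := by
  have h1 : (mk L : FreeGroup α) • ((1 : FreeGroup α) : FreeGroup α ⧸ H) =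
      (mk (invRev P) : FreeGroup α) • ((1 : FreeGroup α) : FreeGroup α ⧸ H) := by
    rw [← inv_mk, eq_inv_smul_iff, ← mul_smul, mul_mk, hfix]
  rw [h1]
  apply mk_mem_ballQ
  rw [invRev_length]
  exact hP

theorem fix_of_mem {x : FreeGroup α} (hx : x ∈ H) :
    x • ((1 : FreeGroup α) : FreeGroup α ⧸ H) = ((1 : FreeGroup α) : FreeGroup α ⧸ H) := by
  change ((x * 1 : FreeGroup α) : FreeGroup α ⧸ H) = _
  rw [mul_one, eq_comm, QuotientGroup.eq]
  simpa using hx

theorem base_mem_ballQ (m : ℕ) : ((1 : FreeGroup α) : FreeGroup α ⧸ H) ∈ ballQ H m :=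
  ⟨1, by simp [ball], rfl⟩

theorem upper_odd [Fintype α] [Nonempty α] (m : ℕ)
    (hXH : ∀ x ∈ X, x ∈ H)
    (hX : ∀ f : X → ZMod 2, ∃ χ : H →* Multiplicative (ZMod 2), ∀ x (hx : x ∈ X),
      χ ⟨x, hXH x hx⟩ = Multiplicative.ofAdd (f ⟨x, hx⟩))
    (hn : ∀ x ∈ X, FreeGroup.norm x ≤ 2 * m + 1) :
    X.card ≤ Fintype.card α * (2 * Fintype.card α - 1) ^ m := by
  classical
  set S := ballQ H m with hS
  let E : Set (α × (FreeGroup α ⧸ H)) := {e | e.2 ∈ S ∧ of e.1 • e.2 ∈ S}
  have hSfin : S.Finite := finite_ballQ H m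
  have hEsub : E ⊆ Set.univ ×ˢ S := fun e he => ⟨trivial, he.1⟩
  have hUfin : (Set.univ ×ˢ S : Set (α × (FreeGroup α ⧸ H))).Finite :=
    Set.finite_univ.prod hSfin
  have hEfin : E.Finite := hUfin.subset hEsub
  have : Finite S := hSfin
  have : Finite E := hEfin
  have hcardE : Nat.card E ≤ Fintype.card α * Nat.card S := by
    have h1 := Set.ncard_le_ncard hEsub hUfin
    rw [Set.ncard_prod, Set.ncard_univ, Nat.card_eq_fintype_card] at h1
    exact h1
  have hedge : ∀ (c : α × Bool) (L : List (α × Bool)),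
      (mk L : FreeGroup α) • ((1 : FreeGroup α) : FreeGroup α ⧸ H) ∈ S →
      (mk (c :: L) : FreeGroup α) • ((1 : FreeGroup α) : FreeGroup α ⧸ H) ∈ S →
      edge c L ((1 : FreeGroup α) : FreeGroup α ⧸ H) ∈ E := by
    intro c L h1 h2
    rcases edge_ends c L ((1 : FreeGroup α) : FreeGroup α ⧸ H) with ⟨h3, h4⟩ | ⟨h3, h4⟩
    · exact ⟨by rw [h3]; exact h1, by rw [h4]; exact h2⟩
    · exact ⟨by rw [h3]; exact h2, by rw [h4]; exact h1⟩
  have hkey := key_bound X H hXH hX S E (base_mem_ballQ H m)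
    (fun φ hφ => conn_of H m E (fun c L hL => hedge c L (mk_mem_ballQ H (by omega))
      (mk_mem_ballQ H (by simpa using hL))) φ hφ)
    (fun x hx => used_of H E (2 * m + 1) (fun c L P hlen hfix => by
      apply hedge
      · by_cases h : L.length ≤ m
        · exact mk_mem_ballQ H h
        · refine suffix_vertex H (P ++ [c]) L (by simpa using hfix) ?_
          simp only [List.length_append, List.length_cons, List.length_nil]
          omega
      · by_cases h : L.length + 1 ≤ m
        · exact mk_mem_ballQ H (by simpa using h)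
        · refine suffix_vertex H P (c :: L) hfix ?_
          omega) (toWord x) [] (hn x hx) (by
        rw [List.nil_append, mk_toWord]; exact fix_of_mem H (hXH x hx)))
  have h1 := card_ballQ_le H m
  have h2 := card_ball (α := α) m
  have hpos : 0 < Fintype.card α := Fintype.card_pos
  obtain ⟨r, hr⟩ : ∃ r, Fintype.card α = r + 1 := ⟨Fintype.card α - 1, by omega⟩
  rw [hr] at hcardE h2 ⊢
  generalize (r + 1) * (2 * (r + 1) - 1) ^ m = q at *
  change Nat.card S ≤ _ at h1
  generalize Nat.card S = s at *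
  generalize Nat.card E = e at *
  generalize Nat.card (ball α m) = b at *
  nlinarith

theorem upper_even [Fintype α] [Nonempty α] (m : ℕ)
    (hXH : ∀ x ∈ X, x ∈ H)
    (hX : ∀ f : X → ZMod 2, ∃ χ : H →* Multiplicative (ZMod 2), ∀ x (hx : x ∈ X),
      χ ⟨x, hXH x hx⟩ = Multiplicative.ofAdd (f ⟨x, hx⟩))
    (hn : ∀ x ∈ X, FreeGroup.norm x ≤ 2 * m + 2) :
    X.card ≤ (2 * Fintype.card α - 1) ^ (m + 1) := by
  classical
  set I := ballQ H m with hI
  set S := ballQ H (m + 1) with hS
  have hIS : I ⊆ S := ballQ_mono H (Nat.le_succ m)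
  have hIfin : I.Finite := finite_ballQ H m
  have hSfin : S.Finite := finite_ballQ H (m + 1)
  let A : Set (α × (FreeGroup α ⧸ H)) := {e | e.2 ∈ I}
  let B : Set (α × (FreeGroup α ⧸ H)) := {e | of e.1 • e.2 ∈ I}
  have hAeq : A = Set.univ ×ˢ I := by
    ext e
    simp [A, Set.mem_prod]
  have hAfin : A.Finite := by rw [hAeq]; exact Set.finite_univ.prod hIfin
  have hAcard : A.ncard = Fintype.card α * Nat.card I := by
    rw [hAeq, Set.ncard_prod, Set.ncard_univ, Nat.card_eq_fintype_card, Nat.card_coe_set_eq]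
  let sh : α × (FreeGroup α ⧸ H) → α × (FreeGroup α ⧸ H) :=
    fun e => (e.1, of e.1 • e.2)
  have hsh : Function.Injective sh := by
    rintro ⟨a, q⟩ ⟨a', q'⟩ h
    simp only [sh, Prod.mk.injEq] at h
    obtain ⟨rfl, h⟩ := h
    rw [smul_left_cancel_iff] at h
    rw [h]
  have hshB : sh '' B = A := by
    ext ⟨a, q⟩
    constructor
    · rintro ⟨⟨a', q'⟩, h1, h2⟩
      rw [← h2]
      exact h1
    · intro h
      refine ⟨(a, (of a)⁻¹ • q), ?_, ?_⟩
      · change of a • ((of a)⁻¹ • q) ∈ I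
        rw [smul_inv_smul]
        exact h
      · simp only [sh]
        rw [smul_inv_smul]
  have hBfin : B.Finite := by
    have : (sh '' B).Finite := by rw [hshB]; exact hAfin
    exact this.of_finite_image hsh.injOn
  have hBcard : B.ncard = Fintype.card α * Nat.card I := by
    rw [← hAcard, ← hshB, Set.ncard_image_of_injective _ hsh]
  let E : Set (α × (FreeGroup α ⧸ H)) := A ∪ B
  let E1 : Set (α × (FreeGroup α ⧸ H)) := A ∩ B
  have hEfin : E.Finite := hAfin.union hBfin
  have hE1fin : E1.Finite := hAfin.subset Set.inter_subset_left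
  have hcount : E.ncard + E1.ncard = 2 * (Fintype.card α * Nat.card I) := by
    have := Set.ncard_union_add_ncard_inter A B hAfin hBfin
    rw [hAcard, hBcard] at this
    simp only [E, E1]
    omega
  -- the outer vertices
  let O : Set (FreeGroup α ⧸ H) := S \ I
  have hOfin : O.Finite := hSfin.subset Set.sdiff_subset
  have hSI : Nat.card S = Nat.card I + O.ncard := by
    rw [Nat.card_coe_set_eq, Nat.card_coe_set_eq]
    have := Set.ncard_sdiff_add_ncard_of_subset hIS hSfin
    simp only [O]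
    omega
  have hstep : ∀ (a : α) (q : FreeGroup α ⧸ H), q ∈ I → of a • q ∈ S := by
    intro a q hq
    obtain ⟨L, hL, rfl⟩ := ballQ_eq H hq
    rw [← mul_smul, ← mk_cons_true]
    exact mk_mem_ballQ H (by simpa using hL)
  have hstep' : ∀ (a : α) (q : FreeGroup α ⧸ H), of a • q ∈ I → q ∈ S := by
    intro a q hq
    obtain ⟨L, hL, h⟩ := ballQ_eq H hq
    have : q = (mk ((a, false) :: L) : FreeGroup α) •
        ((1 : FreeGroup α) : FreeGroup α ⧸ H) := by
      rw [mk_cons_false, mul_smul, ← h, inv_smul_smul]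
    rw [this]
    exact mk_mem_ballQ H (by simpa using hL)
  have hdiff : (E \ E1).ncard ≤ 2 * (Fintype.card α * O.ncard) := by
    have hsub : E \ E1 ⊆ (sh ⁻¹' (Set.univ ×ˢ O)) ∪ (Set.univ ×ˢ O) := by
      rintro ⟨a, q⟩ ⟨h1, h2⟩
      by_cases hq : q ∈ I
      · left
        refine ⟨trivial, hstep a q hq, ?_⟩
        intro h3
        exact h2 ⟨hq, h3⟩
      · right
        rcases h1 with h1 | h1
        · exact absurd h1 hq
        · exact ⟨trivial, hstep' a q h1, hq⟩
    have hPfin : (Set.univ ×ˢ O : Set (α × (FreeGroup α ⧸ H))).Finite :=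
      Set.finite_univ.prod hOfin
    have hPcard : (Set.univ ×ˢ O : Set (α × (FreeGroup α ⧸ H))).ncard =
        Fintype.card α * O.ncard := by
      rw [Set.ncard_prod, Set.ncard_univ, Nat.card_eq_fintype_card]
    have hPre : (sh ⁻¹' (Set.univ ×ˢ O)).Finite := hPfin.preimage hsh.injOn
    have hPrecard : (sh ⁻¹' (Set.univ ×ˢ O)).ncard ≤ Fintype.card α * O.ncard := by
      rw [← hPcard]
      rw [← Set.ncard_image_of_injective _ hsh]
      exact Set.ncard_le_ncard (Set.image_preimage_subset _ _) hPfin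
    have h1 := Set.ncard_le_ncard hsub (hPre.union hPfin)
    have h2 := Set.ncard_union_le (sh ⁻¹' (Set.univ ×ˢ O)) (Set.univ ×ˢ O)
    rw [hPcard] at h2
    omega
  have hE1E : E1 ⊆ E := fun e he => Or.inl he.1
  have hdiff2 : E.ncard = (E \ E1).ncard + E1.ncard :=
    (Set.ncard_sdiff_add_ncard_of_subset hE1E hEfin).symm
  have : Finite S := hSfin
  have : Finite I := hIfin
  have : Finite E := hEfin
  have : Finite E1 := hE1fin
  have hedge : ∀ (c : α × Bool) (L : List (α × Bool)),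
      ((mk L : FreeGroup α) • ((1 : FreeGroup α) : FreeGroup α ⧸ H) ∈ I ∨
      (mk (c :: L) : FreeGroup α) • ((1 : FreeGroup α) : FreeGroup α ⧸ H) ∈ I) →
      edge c L ((1 : FreeGroup α) : FreeGroup α ⧸ H) ∈ E := by
    intro c L h1
    rcases edge_ends c L ((1 : FreeGroup α) : FreeGroup α ⧸ H) with ⟨h3, h4⟩ | ⟨h3, h4⟩
    · rcases h1 with h1 | h1
      · left; change _ ∈ I; rw [h3]; exact h1
      · right; change _ ∈ I; rw [h4]; exact h1
    · rcases h1 with h1 | h1
      · right; change _ ∈ I; rw [h4]; exact h1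
      · left; change _ ∈ I; rw [h3]; exact h1
  have hedge1 : ∀ (c : α × Bool) (L : List (α × Bool)), L.length + 1 ≤ m →
      edge c L ((1 : FreeGroup α) : FreeGroup α ⧸ H) ∈ E1 := by
    intro c L hL
    have h1 : (mk L : FreeGroup α) • ((1 : FreeGroup α) : FreeGroup α ⧸ H) ∈ I :=
      mk_mem_ballQ H (by omega)
    have h2 : (mk (c :: L) : FreeGroup α) • ((1 : FreeGroup α) : FreeGroup α ⧸ H) ∈ I :=
      mk_mem_ballQ H (by simpa using hL)
    rcases edge_ends c L ((1 : FreeGroup α) : FreeGroup α ⧸ H) with ⟨h3, h4⟩ | ⟨h3, h4⟩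
    · exact ⟨by change _ ∈ I; rw [h3]; exact h1, by change _ ∈ I; rw [h4]; exact h2⟩
    · exact ⟨by change _ ∈ I; rw [h3]; exact h2, by change _ ∈ I; rw [h4]; exact h1⟩
  have hkey := key_bound X H hXH hX S E (base_mem_ballQ H (m + 1))
    (fun φ hφ => conn_of H (m + 1) E (fun c L hL => hedge c L
      (Or.inl (mk_mem_ballQ H (by omega)))) φ hφ)
    (fun x hx => used_of H E (2 * m + 2) (fun c L P hlen hfix => by
      apply hedge
      by_cases h : L.length ≤ m
      · left
        exact mk_mem_ballQ H h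
      · right
        refine suffix_vertex H P (c :: L) hfix ?_
        omega) (toWord x) [] (hn x hx) (by
        rw [List.nil_append, mk_toWord]; exact fix_of_mem H (hXH x hx)))
  have hconn1 := conn_bound' (S := I) (E := E1) _ (base_mem_ballQ H m)
    (fun φ hφ => conn_of H m E1 hedge1 φ hφ)
  have h1 := card_ballQ_le H m
  have h2 := card_ball (α := α) m
  have hpos : 0 < Fintype.card α := Fintype.card_pos
  obtain ⟨r, hr⟩ : ∃ r, Fintype.card α = r + 1 := ⟨Fintype.card α - 1, by omega⟩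
  rw [Nat.card_coe_set_eq E] at hkey
  rw [Nat.card_coe_set_eq E1] at hconn1
  rw [hSI] at hkey
  change Nat.card I ≤ _ at h1
  have e5 : 2 * (r + 1) - 1 = 2 * r + 1 := by omega
  rw [hr] at hcount hdiff h2 ⊢
  rw [e5] at h2 ⊢
  rw [pow_succ]
  generalize (2 * r + 1) ^ m = q at *
  generalize Nat.card I = i at *
  generalize E.ncard = e at *
  generalize E1.ncard = e1 at *
  generalize (E \ E1).ncard = d at *
  generalize O.ncard = o at *
  generalize X.card = x at *
  generalize Nat.card (ball α m) = b at *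
  -- the final count
  have k1 : (r : ℤ) * i + 1 ≤ (r + 1) * q := by
    have h2' : ((r : ℤ) + 1) * q + b = (r + 1) * b + 1 := by exact_mod_cast h2
    have h1' : (i : ℤ) ≤ b := by exact_mod_cast h1
    have hr0 : (0 : ℤ) ≤ r := by positivity
    nlinarith
  have k2 : (e : ℤ) + e1 = 2 * ((r + 1) * i) := by exact_mod_cast hcount
  have k3 : (e : ℤ) ≤ 2 * ((r + 1) * o) + e1 := by
    have : e ≤ 2 * ((r + 1) * o) + e1 := by omega
    exact_mod_cast this
  have k4 : (x : ℤ) + (i + o) ≤ e + 1 := by exact_mod_cast hkey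
  have k5 : (i : ℤ) ≤ e1 + 1 := by exact_mod_cast hconn1
  have hr0 : (0 : ℤ) ≤ r := by positivity
  have k6 : 2 * ((r : ℤ) + 1) * x ≤ 2 * ((r : ℤ) + 1) * ((2 * r + 1) * q) := by
    have hA : 2 * ((r : ℤ) + 1) * (x + (i + o)) ≤ 2 * ((r : ℤ) + 1) * (e + 1) :=
      mul_le_mul_of_nonneg_left k4 (by positivity)
    have hB : (r : ℤ) * i ≤ r * (e1 + 1) := mul_le_mul_of_nonneg_left k5 hr0
    have hC : (2 * (2 * (r : ℤ) + 1)) * (r * i + 1) ≤ (2 * (2 * (r : ℤ) + 1)) * ((r + 1) * q) :=
      mul_le_mul_of_nonneg_left k1 (by positivity)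
    have he : (e : ℤ) = 2 * ((r + 1) * i) - e1 := by linarith
    rw [he] at hA k3
    nlinarith
  have k7 : (x : ℤ) ≤ (2 * r + 1) * q := by
    have : (0 : ℤ) < 2 * (r + 1) := by positivity
    exact le_of_mul_le_mul_left k6 this
  have k8 : x ≤ (2 * r + 1) * q := by exact_mod_cast k7
  rw [mul_comm q]
  exact k8

end upper

end Pool.Agent.Y367.FB
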